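import Pool.Agent.Lib.MP_6a1159_al.BS.K8

/-!
# MP_6a1159_al: a uniform lower bound for balanced separating Dehn twists

`phiSep g n` is the stable commutator length, in the mapping class group of the closed oriented
surface of genus `g`, of the Dehn twist about the separating curve `∏ i < n, [a_i, b_i]`, which cuts
off a subsurface of genus `n`. The definitions are in `Pool.Agent.Lib.MP_6a1159_al.Defs`,
`Pool.Agent.Lib.MP_6a1159_al.Final` and `Pool.Agent.Lib.MP_6a1159_al.HC.Sep`.
-/

set_option autoImplicit false

open scoped ENNReal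

namespace Pool.Agent.Results.MP_6a1159_al.BalancedTwist

open Pool.Agent.Lib.MP_6a1159_al

/-- `1 / 10944 ≤ φ(2 n, n)` for all `n ≥ 2`. -/
theorem result : ∀ n : ℕ, 2 ≤ n → (1 : ℝ≥0∞) / 10944 ≤ phiSep (2 * n) n :=
  fun n hn => BS.final_bs n hn

end Pool.Agent.Results.MP_6a1159_al.BalancedTwist
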