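import Pool.Agent.Lib.MP_6a1159_al.Final

/-!
# MP_6a1159_al, Q2: comparison of the stable commutator lengths of Dehn twists

`phi g i` is the stable commutator length of the Dehn twist about the nonseparating curve `a_i` in
the mapping class group of the closed oriented surface of genus `g`. The definitions are in
`Pool.Agent.Lib.MP_6a1159_al.Defs` and `Pool.Agent.Lib.MP_6a1159_al.Final`.
-/

set_option autoImplicit false

open scoped ENNReal

namespace Pool.Agent.Results.MP_6a1159_al.CoveringInequality

open Pool.Agent.Lib.MP_6a1159_al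

/-- For all `g ≥ 2`, `D ≥ 2` and `h = D (g - 1) + 1`, `E φ(h, 0) ≤ φ(g, 0)` with an explicit factor
`E > 1`; for a prime `D = p` it is `(p^(2g) + p^(2g-1) - p^(2g-2) - p) / (p^(2g) - 1)`. -/
theorem result : ∀ g : ℕ, 2 ≤ g → ∀ D : ℕ, 2 ≤ D →
    1 < factor g D.primeFactorsList ∧ ∀ (i : Fin g) (j : Fin (D * (g - 1) + 1)),
      ENNReal.ofReal (factor g D.primeFactorsList) * phi (D * (g - 1) + 1) j ≤ phi g i :=
  fun g hg D hD => final g hg D hD

end Pool.Agent.Results.MP_6a1159_al.CoveringInequality
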