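import Pool.Agent.Lib.MP_6a1159_al.HC.U

/-!
# MP_6a1159_al: separating against nonseparating Dehn twists

`phi g i` is the stable commutator length of the Dehn twist about the nonseparating curve `a_i` in
the mapping class group of the closed oriented surface of genus `g`; `phiSep g n` is the one of the
Dehn twist about the separating curve `∏ i < n, [a_i, b_i]`, which cuts off a subsurface of genus
`n`. The definitions are in `Pool.Agent.Lib.MP_6a1159_al.Defs`,
`Pool.Agent.Lib.MP_6a1159_al.Final` and `Pool.Agent.Lib.MP_6a1159_al.HC.Sep`.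
-/

set_option autoImplicit false

open scoped ENNReal

namespace Pool.Agent.Results.MP_6a1159_al.HomologyCovering

open Pool.Agent.Lib.MP_6a1159_al

/-- `D φ(D (g - 1) + 1, 0) ≤ φ(g, n)` for all `g ≥ 2`, `1 ≤ n ≤ g - 1` and `D = m ^ (2 g)` with
`m ≥ 2`. -/
theorem result : ∀ g : ℕ, 2 ≤ g → ∀ n : ℕ, 1 ≤ n → n < g → ∀ m : ℕ, 2 ≤ m →
    ∀ j : Fin (m ^ (2 * g) * (g - 1) + 1),
      ((m ^ (2 * g) : ℕ) : ℝ≥0∞) * phi (m ^ (2 * g) * (g - 1) + 1) j ≤ phiSep g n :=
  fun g hg n hn hng m hm j => final_sep g hg n hn hng m hm j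

end Pool.Agent.Results.MP_6a1159_al.HomologyCovering
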