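import Pool.Agent.Lib.MP_6a1159_al.UC.K9

/-!
# MP_6a1159_al: an upper bound for the stable commutator length of a Dehn twist

`phi g i` is the stable commutator length of the Dehn twist about the nonseparating curve `a_i` in
the mapping class group of the closed oriented surface of genus `g`. The definitions are in
`Pool.Agent.Lib.MP_6a1159_al.Defs` and `Pool.Agent.Lib.MP_6a1159_al.Final`.
-/

set_option autoImplicit false

open scoped ENNReal

namespace Pool.Agent.Results.MP_6a1159_al.UpperBound12

open Pool.Agent.Lib.MP_6a1159_al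

/-- `φ(g, 0) ≤ 1 / (12 (g - 2))` for all `g ≥ 3`. -/
theorem result : ∀ g : ℕ, 3 ≤ g → ∀ i : Fin g, phi g i ≤ 1 / (12 * ((g - 2 : ℕ) : ℝ≥0∞)) :=
  phi_le12

end Pool.Agent.Results.MP_6a1159_al.UpperBound12
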